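import Mathlib

/-!
Counterexamples to the 4n/5 bound for double total domination in graphs of minimum degree three.

A unit is a copy of the Heawood graph (points 0..6, lines 7..13) with one more vertex 14 joined
to the point 0.  Take r extra vertices and, for every ordered pair (i, j) of them, a unit whose
vertex 14 is joined to i and j (to all extra vertices when i = j).  A double total dominating set
has at least 12 vertices in every unit and misses at most one extra vertex.
-/

set_option autoImplicit false

namespace Pool.Agent.Lib.MP_abcac9_co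

open Finset

/-- Point `i` lies on line `j` of the Fano plane (difference set 0, 1, 3 modulo 7). -/
def inc (i j : ℕ) : Bool := (i + 7 - j) % 7 == 0 || (i + 7 - j) % 7 == 1 || (i + 7 - j) % 7 == 3

/-- One orientation of the edges of a unit. -/
def uedge (a b : Fin 15) : Bool :=
  (decide (a.val < 7) && decide (7 ≤ b.val) && decide (b.val < 14) && inc a.val (b.val - 7)) ||
    (a.val == 0 && b.val == 14)

/-- Adjacency in a unit. -/
def uadj (a b : Fin 15) : Bool := uedge a b || uedge b a

lemma uadj_symm : ∀ a b : Fin 15, uadj a b = uadj b a := by decide +kernel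

lemma uadj_irrefl : ∀ a : Fin 15, uadj a a = false := by decide +kernel

lemma uadj_deg : ∀ a : Fin 15, a ≠ 14 → 3 ≤ (univ.filter (fun b => uadj a b = true)).card := by
  decide +kernel

lemma uadj_last : ∀ b : Fin 15, uadj 14 b = true → b = 0 := by decide +kernel

/-- A step towards vertex 14 inside a unit. -/
def par : Fin 15 → Fin 15 := ![14, 7, 13, 7, 11, 11, 13, 0, 1, 2, 3, 0, 5, 0, 14]

lemma par_adj : ∀ a : Fin 15, a = par a ∨ uadj a (par a) = true := by decide +kernel

lemma par_iter : ∀ a : Fin 15, par (par (par (par a))) = 14 := by decide +kernel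

lemma card_le_list (f : Fin 15 → Bool) (a : Fin 15) (l : List (Fin 15))
    (hl : ∀ b, uadj a b = true → b ∈ l) :
    (univ.filter (fun b : Fin 15 => f b = true ∧ uadj a b = true)).card ≤
      (l.map (fun b => (f b).toNat)).sum := by
  have h1 : (univ.filter (fun b : Fin 15 => f b = true ∧ uadj a b = true)) ⊆
      (l.filter f).toFinset := by
    intro b hb
    simp only [mem_filter, mem_univ, true_and] at hb
    simp [hb.1, hl b hb.2]
  refine (card_le_card h1).trans ((List.toFinset_card_le _).trans ?_)
  clear h1 hl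
  induction l with
  | nil => simp
  | cons x l ih =>
    rw [List.filter_cons]
    cases hx : f x <;> simp [hx] <;> omega

lemma points_bool : ∀ b0 b1 b2 b3 b4 b5 b6 : Bool,
    2 ≤ b0.toNat + b1.toNat + b3.toNat →
    2 ≤ b1.toNat + b2.toNat + b4.toNat →
    2 ≤ b2.toNat + b3.toNat + b5.toNat →
    2 ≤ b3.toNat + b4.toNat + b6.toNat →
    2 ≤ b0.toNat + b4.toNat + b5.toNat →
    2 ≤ b1.toNat + b5.toNat + b6.toNat →
    2 ≤ b0.toNat + b2.toNat + b6.toNat →
    6 ≤ b0.toNat + b1.toNat + b2.toNat + b3.toNat + b4.toNat + b5.toNat + b6.toNat := by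
  decide

lemma lines_bool : ∀ b7 b8 b9 b10 b11 b12 b13 b14 : Bool,
    2 ≤ b7.toNat + b11.toNat + b13.toNat + b14.toNat →
    2 ≤ b7.toNat + b8.toNat + b12.toNat →
    2 ≤ b8.toNat + b9.toNat + b13.toNat →
    2 ≤ b7.toNat + b9.toNat + b10.toNat →
    2 ≤ b8.toNat + b10.toNat + b11.toNat →
    2 ≤ b9.toNat + b11.toNat + b12.toNat →
    2 ≤ b10.toNat + b12.toNat + b13.toNat →
    6 ≤ b7.toNat + b8.toNat + b9.toNat + b10.toNat + b11.toNat + b12.toNat + b13.toNat + b14.toNat := by
  decide

lemma unit_bound (f : Fin 15 → Bool)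
    (h : ∀ a : Fin 15, a ≠ 14 →
      2 ≤ (univ.filter (fun b : Fin 15 => f b = true ∧ uadj a b = true)).card) :
    12 ≤ (univ.filter (fun b : Fin 15 => f b = true)).card := by
  have h0 := (h 0 (by decide)).trans (card_le_list f 0 [7, 11, 13, 14] (by decide +kernel))
  have h1 := (h 1 (by decide)).trans (card_le_list f 1 [7, 8, 12] (by decide +kernel))
  have h2 := (h 2 (by decide)).trans (card_le_list f 2 [8, 9, 13] (by decide +kernel))
  have h3 := (h 3 (by decide)).trans (card_le_list f 3 [7, 9, 10] (by decide +kernel))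
  have h4 := (h 4 (by decide)).trans (card_le_list f 4 [8, 10, 11] (by decide +kernel))
  have h5 := (h 5 (by decide)).trans (card_le_list f 5 [9, 11, 12] (by decide +kernel))
  have h6 := (h 6 (by decide)).trans (card_le_list f 6 [10, 12, 13] (by decide +kernel))
  have h7 := (h 7 (by decide)).trans (card_le_list f 7 [0, 1, 3] (by decide +kernel))
  have h8 := (h 8 (by decide)).trans (card_le_list f 8 [1, 2, 4] (by decide +kernel))
  have h9 := (h 9 (by decide)).trans (card_le_list f 9 [2, 3, 5] (by decide +kernel))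
  have h10 := (h 10 (by decide)).trans (card_le_list f 10 [3, 4, 6] (by decide +kernel))
  have h11 := (h 11 (by decide)).trans (card_le_list f 11 [0, 4, 5] (by decide +kernel))
  have h12 := (h 12 (by decide)).trans (card_le_list f 12 [1, 5, 6] (by decide +kernel))
  have h13 := (h 13 (by decide)).trans (card_le_list f 13 [0, 2, 6] (by decide +kernel))
  simp only [List.map_cons, List.map_nil, List.sum_cons, List.sum_nil, add_zero] at h0 h1 h2 h3 h4 h5 h6 h7 h8 h9 h10 h11 h12 h13
  have hp := points_bool (f 0) (f 1) (f 2) (f 3) (f 4) (f 5) (f 6)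
    (by omega) (by omega) (by omega) (by omega) (by omega) (by omega) (by omega)
  have hl := lines_bool (f 7) (f 8) (f 9) (f 10) (f 11) (f 12) (f 13) (f 14)
    (by omega) (by omega) (by omega) (by omega) (by omega) (by omega) (by omega)
  have hc : (univ.filter (fun b : Fin 15 => f b = true)).card = ∑ b : Fin 15, (f b).toNat := by
    rw [card_filter]
    refine sum_congr rfl fun b _ => ?_
    cases f b <;> simp
  have hs : ∑ b : Fin 15, (f b).toNat = (f 0).toNat + (f 1).toNat + (f 2).toNat + (f 3).toNat + (f 4).toNat + (f 5).toNat + (f 6).toNat + (f 7).toNat + (f 8).toNat + (f 9).toNat + (f 10).toNat + (f 11).toNat + (f 12).toNat + (f 13).toNat + (f 14).toNat := by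
    simp only [Fin.sum_univ_succ, Fin.sum_univ_zero, add_zero, ← add_assoc]
    rfl
  omega

/-- The vertices of the counterexample. -/
abbrev Vtx (r : ℕ) : Type := Fin r ⊕ ((Fin r × Fin r) × Fin 15)

/-- Adjacency in the counterexample. -/
def adj {r : ℕ} : Vtx r → Vtx r → Prop
  | Sum.inl _, Sum.inl _ => False
  | Sum.inl k, Sum.inr (q, a) => a = 14 ∧ (k = q.1 ∨ k = q.2 ∨ q.1 = q.2)
  | Sum.inr (q, a), Sum.inl k => a = 14 ∧ (k = q.1 ∨ k = q.2 ∨ q.1 = q.2)
  | Sum.inr (q, a), Sum.inr (q', b) => q = q' ∧ uadj a b = true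

/-- The counterexample. -/
def G (r : ℕ) : SimpleGraph (Vtx r) where
  Adj := adj
  symm := ⟨by
    rintro (k | ⟨q, a⟩) (k' | ⟨q', b⟩) h
    · exact h
    · exact h
    · exact h
    · exact ⟨h.1.symm, by rw [uadj_symm]; exact h.2⟩⟩
  loopless := ⟨by
    rintro (k | ⟨q, a⟩) h
    · exact h
    · have := h.2
      rw [uadj_irrefl] at this
      exact Bool.false_ne_true this⟩

lemma reach_par {r : ℕ} (q : Fin r × Fin r) (a : Fin 15) :
    (G r).Reachable (Sum.inr (q, a)) (Sum.inr (q, par a)) := by
  rcases par_adj a with h | h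
  · rw [← h]
  · have h' : (G r).Adj (Sum.inr (q, a)) (Sum.inr (q, par a)) := ⟨rfl, h⟩
    exact h'.reachable

lemma reach_last {r : ℕ} (q : Fin r × Fin r) (a : Fin 15) :
    (G r).Reachable (Sum.inr (q, a)) (Sum.inr (q, 14)) := by
  have h := ((reach_par q a).trans (reach_par q _)).trans
    ((reach_par q _).trans (reach_par q _))
  rwa [par_iter] at h

lemma reach_inl {r : ℕ} (i j : Fin r) : (G r).Reachable (Sum.inl i) (Sum.inl j) := by
  have h1 : (G r).Adj (Sum.inl i) (Sum.inr ((i, j), 14)) := ⟨rfl, Or.inl rfl⟩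
  have h2 : (G r).Adj (Sum.inr ((i, j), 14)) (Sum.inl j) := ⟨rfl, Or.inr (Or.inl rfl)⟩
  exact h1.reachable.trans h2.reachable

lemma reach_all {r : ℕ} (i : Fin r) (v : Vtx r) : (G r).Reachable v (Sum.inl i) := by
  rcases v with k | ⟨q, a⟩
  · exact reach_inl k i
  · have h2 : (G r).Adj (Sum.inr (q, 14)) (Sum.inl q.1) := ⟨rfl, Or.inl rfl⟩
    exact ((reach_last q a).trans h2.reachable).trans (reach_inl _ _)

lemma connected {r : ℕ} (hr : 0 < r) : (G r).Connected := by
  have : Nonempty (Vtx r) := ⟨Sum.inl ⟨0, hr⟩⟩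
  exact ⟨fun u v => (reach_all ⟨0, hr⟩ u).trans (reach_all ⟨0, hr⟩ v).symm⟩

lemma degree_ge {r : ℕ} (hr : 3 ≤ r) [DecidableRel (G r).Adj] (v : Vtx r) :
    3 ≤ (G r).degree v := by
  rw [← SimpleGraph.card_neighborFinset_eq_degree]
  rcases v with k | ⟨⟨i, j⟩, a⟩
  · calc 3 ≤ (univ : Finset (Fin r)).card := by simpa using hr
      _ ≤ _ := by
        refine card_le_card_of_injOn (fun j => (Sum.inr ((k, j), 14) : Vtx r)) ?_ ?_
        · intro j _
          simp only [mem_coe, SimpleGraph.mem_neighborFinset]
          exact ⟨rfl, Or.inl rfl⟩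
        · intro j _ j' _ h
          simpa using h
  · by_cases ha : a = 14
    · subst ha
      by_cases hij : i = j
      · calc 3 ≤ (univ : Finset (Fin r)).card := by simpa using hr
          _ ≤ _ := by
            refine card_le_card_of_injOn (fun k => (Sum.inl k : Vtx r)) ?_ ?_
            · intro k _
              simp only [mem_coe, SimpleGraph.mem_neighborFinset]
              exact ⟨rfl, Or.inr (Or.inr hij)⟩
            · intro j _ j' _ h
              simpa using h
      · have hc : ({Sum.inl i, Sum.inl j, Sum.inr ((i, j), 0)} : Finset (Vtx r)).card = 3 := by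
          rw [card_eq_three]
          exact ⟨_, _, _, by simpa using hij, by simp, by simp, rfl⟩
        rw [← hc]
        refine card_le_card ?_
        intro u hu
        simp only [mem_insert, mem_singleton] at hu
        rw [SimpleGraph.mem_neighborFinset]
        rcases hu with rfl | rfl | rfl
        · exact ⟨rfl, Or.inl rfl⟩
        · exact ⟨rfl, Or.inr (Or.inl rfl)⟩
        · exact ⟨rfl, by decide +kernel⟩
    · refine (uadj_deg a ha).trans ?_
      refine card_le_card_of_injOn (fun b => (Sum.inr ((i, j), b) : Vtx r)) ?_ ?_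
      · intro b hb
        simp only [mem_coe, mem_filter, mem_univ, true_and] at hb
        simp only [mem_coe, SimpleGraph.mem_neighborFinset]
        exact ⟨rfl, hb⟩
      · intro b _ b' _ h
        simpa using h

lemma card_split {r : ℕ} (S : Finset (Vtx r)) :
    S.card = (univ.filter (fun k : Fin r => Sum.inl k ∈ S)).card +
      ∑ q : Fin r × Fin r, (univ.filter (fun b : Fin 15 => Sum.inr (q, b) ∈ S)).card := by
  have h : S.card = ∑ v : Vtx r, if v ∈ S then 1 else 0 := by
    rw [← card_filter]; simp
  rw [h, Fintype.sum_sum_type, Fintype.sum_prod_type]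
  simp only [card_filter]

lemma lower_bound {r : ℕ} [DecidableRel (G r).Adj] (S : Finset (Vtx r))
    (hS : ∀ v : Vtx r, 2 ≤ (S.filter (fun u => (G r).Adj v u)).card) :
    r + 12 * (r * r) ≤ S.card + 1 := by
  have hunit : ∀ q : Fin r × Fin r,
      12 ≤ (univ.filter (fun b : Fin 15 => Sum.inr (q, b) ∈ S)).card := by
    intro q
    have := unit_bound (fun b => decide (Sum.inr (q, b) ∈ S)) ?_
    · simpa using this
    · intro a ha
      refine (hS (Sum.inr (q, a))).trans ?_
      refine card_le_card_of_surjOn (fun b => (Sum.inr (q, b) : Vtx r)) ?_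
      rintro (k | ⟨q', b⟩) hu
      · simp only [mem_coe, mem_filter] at hu
        exact absurd hu.2.1 ha
      · simp only [mem_coe, mem_filter] at hu
        obtain ⟨hu1, hq, hab⟩ := hu
        subst hq
        exact ⟨b, by simp [hu1, hab], rfl⟩
  have hR : (univ.filter (fun k : Fin r => ¬ (Sum.inl k ∈ S))).card ≤ 1 := by
    rw [card_le_one]
    intro i hi j hj
    simp only [mem_filter, mem_univ, true_and] at hi hj
    by_contra hij
    have h2 := hS (Sum.inr ((i, j), 14))
    have h1 : (S.filter (fun u => (G r).Adj (Sum.inr ((i, j), 14)) u)) ⊆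
        {Sum.inr ((i, j), 0)} := by
      rintro (k | ⟨q', b⟩) hu
      · simp only [mem_filter] at hu
        rcases hu.2.2 with h | h | h
        · obtain rfl : k = i := h
          exact absurd hu.1 hi
        · obtain rfl : k = j := h
          exact absurd hu.1 hj
        · exact absurd h hij
      · simp only [mem_filter] at hu
        obtain ⟨_, hq, hab⟩ := hu
        subst hq
        rw [uadj_last b hab]
        exact mem_singleton_self _
    have := card_le_card h1
    rw [card_singleton] at this
    omega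
  have hsum : 12 * (r * r) ≤
      ∑ q : Fin r × Fin r, (univ.filter (fun b : Fin 15 => Sum.inr (q, b) ∈ S)).card := by
    calc 12 * (r * r) = ∑ _q : Fin r × Fin r, 12 := by simp [mul_comm]
      _ ≤ _ := sum_le_sum fun q _ => hunit q
  have hc := card_filter_add_card_filter_not (s := (univ : Finset (Fin r)))
    (fun k : Fin r => Sum.inl k ∈ S)
  rw [card_univ, Fintype.card_fin] at hc
  rw [card_split S]
  omega

lemma card_Vtx (r : ℕ) : Fintype.card (Vtx r) = r + 15 * (r * r) := by
  simp [Vtx, mul_comm]

end Pool.Agent.Lib.MP_abcac9_co
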